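import Pool.Agent.TH747.HS.FS

/-!
A computable colouring of the positive integers with two colours such that every solution of
Hindman's theorem for it computes a function which is diagonally noncomputable relative to the
triple jump `0'''`. The same for sums of exactly four elements, if the set contains multiples of
all powers of `3`.
-/

namespace Pool.Agent.Results.MP_69fea5_lc.DiagonalOverTripleJump

open Pool.Agent.H645R2.HT Pool.Agent.TH747.HS

/-- The characteristic function of a set of natural numbers, as a (total) partial function. -/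
noncomputable def char (B : Set ℕ) : ℕ →. ℕ := by
  classical exact fun n => Part.some (if n ∈ B then 1 else 0)

theorem main {Y X : Set ℕ} {V : Ultrafilter ℕ} (hV : FarU V) (hp : 0 ∉ Y)
    (hY : ∀ N, ∃ x ∈ Y, 3 ^ N ∣ x)
    (hc : ∃ i, ∀ h ∈ Y, Sm V 3 (fun l => col (D3k W0 3) (h + l) = i))
    (r1 : Pool.Agent.Helper446.Oracle.REIn X fun n : ℕ => n ∈ Y)
    (r2 : Pool.Agent.Helper446.Oracle.REIn X fun n : ℕ => n ∉ Y)
    (R : ℕ → ℕ → ℕ → ℕ → ℕ → ℕ → Bool)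
    (hR : Computable (fun x : ℕ × ℕ × ℕ × ℕ × ℕ × ℕ =>
      R x.1 x.2.1 x.2.2.1 x.2.2.2.1 x.2.2.2.2.1 x.2.2.2.2.2)) :
    ∃ f : ℕ → ℕ, TuringReducible (fun n => Part.some (f n)) (char X) ∧
      ∀ q, ¬ ∀ m, (∃ a, ∀ b, ∃ t, ∀ u, R q m a b t u = true) ↔ m = f q := by
  classical
  obtain ⟨f, hf1, hf2⟩ := dnc (k := 3) le_rfl hV hp hY hc r1 r2 hR
  exact ⟨f, Pool.Agent.Helper446.Oracle.turingReducible_fun_iff.2 hf1, hf2⟩

theorem result :
    ∃ c : ℕ → Bool, Computable c ∧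
      ∀ X : Set ℕ, X.Infinite → 0 ∉ X →
        ((∃ i, ∀ F : Finset ℕ, (F : Set ℕ) ⊆ X → F.Nonempty → c (∑ n ∈ F, n) = i) ∨
          ((∀ N, ∃ x ∈ X, 3 ^ N ∣ x) ∧
            ∃ i, ∀ F : Finset ℕ, (F : Set ℕ) ⊆ X → F.card = 4 → c (∑ n ∈ F, n) = i)) →
        ∀ R : ℕ → ℕ → ℕ → ℕ → ℕ → ℕ → Bool,
          Computable (fun x : ℕ × ℕ × ℕ × ℕ × ℕ × ℕ =>
            R x.1 x.2.1 x.2.2.1 x.2.2.2.1 x.2.2.2.2.1 x.2.2.2.2.2) →
          ∃ f : ℕ → ℕ, TuringReducible (fun n => Part.some (f n)) (char X) ∧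
            ∀ q, ¬ ∀ m, (∃ a, ∀ b, ∃ t, ∀ u, R q m a b t u = true) ↔ m = f q := by
  refine ⟨col (D3k W0 3), c_col (c_D3k c_W0 3), ?_⟩
  rintro X hX h0 (hc | ⟨hd, hc⟩) R hR
  · obtain ⟨V, hV, hY, hV2⟩ := hyp_FS hX h0 hc (k := 3) (by omega)
    exact main hV (zero_notMem_FS h0) hY hV2 re_FS re_not_FS R hR
  · obtain ⟨V, hV, hV2⟩ := hyp_eq (k := 3) h0 hd hc
    exact main hV h0 hd hV2 (Pool.Agent.Helper446.Oracle.REIn.mem Computable.id)
      (Pool.Agent.Helper446.Oracle.REIn.not_mem Computable.id) R hR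

end Pool.Agent.Results.MP_69fea5_lc.DiagonalOverTripleJump
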