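import Pool.Agent.TH747.HS.FS

/-!
A computable colouring of the positive integers with two colours such that no `Σ⁰₄` set is a
solution of Hindman's theorem for it. The same for sums of exactly four elements, if the set
contains multiples of all powers of `3`.
-/

namespace Pool.Agent.Results.MP_69fea5_lc.NoSigmaFour

open Pool.Agent.H645R2.HT Pool.Agent.TH747.HS

theorem result :
    ∃ c : ℕ → Bool, Computable c ∧
      ∀ X : Set ℕ, X.Infinite → 0 ∉ X →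
        ((∃ i, ∀ F : Finset ℕ, (F : Set ℕ) ⊆ X → F.Nonempty → c (∑ n ∈ F, n) = i) ∨
          ((∀ N, ∃ x ∈ X, 3 ^ N ∣ x) ∧
            ∃ i, ∀ F : Finset ℕ, (F : Set ℕ) ⊆ X → F.card = 4 → c (∑ n ∈ F, n) = i)) →
        ∀ R : ℕ → ℕ → ℕ → ℕ → ℕ → Bool,
          Computable (fun x : ℕ × ℕ × ℕ × ℕ × ℕ => R x.1 x.2.1 x.2.2.1 x.2.2.2.1 x.2.2.2.2) →
          X ≠ {n | ∃ a, ∀ b, ∃ t, ∀ u, R n a b t u = true} := by
  refine ⟨col (D3k W0 3), c_col (c_D3k c_W0 3), ?_⟩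
  rintro X hX h0 (hc | ⟨hd, hc⟩) R hR
  · obtain ⟨V, hV, hY, hV2⟩ := hyp_FS hX h0 hc (k := 3) (by omega)
    intro hXR
    exact no_sigma4 (k := 3) le_rfl hV (zero_notMem_FS h0) hY hV2 (c_RFS hR) (FS_sig4 hXR)
  · obtain ⟨V, hV, hV2⟩ := hyp_eq (k := 3) h0 hd hc
    exact no_sigma4 (k := 3) le_rfl hV h0 hd hV2 hR

end Pool.Agent.Results.MP_69fea5_lc.NoSigmaFour
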