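import Pool.Agent.TH777.HT23.Comp

/-!
A computable 2-colouring of the natural numbers all of whose infinite homogeneous sets for sums
of at most three distinct elements compute the halting problem.
-/

namespace Pool.Agent.Results.MP_69fea5_lc.TwoColoursThreeSums

open Pool.Agent.TH777.HT23
open Pool.Agent.H645R2.C3 (W0 univ_W0 c_W0)

/-- The characteristic function of a set of natural numbers, as a (total) partial function. -/
noncomputable def char (B : Set ℕ) : ℕ →. ℕ := by
  classical exact fun n => Part.some (if n ∈ B then 1 else 0)

/-- There is a computable colouring `c` of the natural numbers with `2` colours such that every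
infinite set `X` of natural numbers, all of whose sums of at most three distinct elements get the
same colour, computes every computably enumerable set (equivalently, computes `0'`). -/
theorem result :
    ∃ c : ℕ → Fin 2, Computable c ∧
      ∀ X : Set ℕ, X.Infinite →
        (∃ i, ∀ F : Finset ℕ, (F : Set ℕ) ⊆ X → F.Nonempty → F.card ≤ 3 →
          c (∑ n ∈ F, n) = i) →
        ∀ p : ℕ → Prop, REPred p → TuringReducible (char {n | p n}) (char X) := by
  classical
  have hlt : ∀ n, col W0 n < 2 := fun n => Nat.mod_lt _ (by norm_num)
  refine ⟨fun n => ⟨col W0 n, hlt n⟩, ?_, ?_⟩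
  · refine Pool.Agent.Helper446.RE.computable_of_graph ?_
    have h1 : REPred fun x : ℕ × Fin 2 => col W0 x.1 = x.2.val :=
      Pool.Agent.Helper446.RE.eq ((c_col c_W0).comp (g := fun x : ℕ × Fin 2 => x.1) (by fun_prop))
        (Primrec.fin_val.to_comp.comp Computable.snd)
    refine h1.of_eq fun x => ?_
    rw [Fin.ext_iff]
  · rintro X hinf ⟨i, hi⟩ p hp
    have e1 : ∀ x ∈ X, col W0 x = i.val := by
      intro x hx
      have := hi {x} (by simpa using hx) (by simp) (by simp)
      rw [Finset.sum_singleton] at this
      exact congrArg Fin.val this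
    have e2 : ∀ x ∈ X, ∀ y ∈ X, x ≠ y → col W0 (x + y) = i.val := by
      intro x hx y hy hxy
      have := hi {x, y} (by
        intro w hw
        simp only [Finset.coe_insert, Finset.coe_singleton, Set.mem_insert_iff,
          Set.mem_singleton_iff] at hw
        rcases hw with rfl | rfl <;> assumption) (by simp) (by
        rw [Finset.card_pair hxy]; norm_num)
      rw [Finset.sum_pair hxy] at this
      exact congrArg Fin.val this
    have e3 : ∀ x ∈ X, ∀ y ∈ X, ∀ z ∈ X, x ≠ y → x ≠ z → y ≠ z → col W0 (x + y + z) = i.val := by
      intro x hx y hy z hz hxy hxz hyz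
      have h1 : x ∉ ({y, z} : Finset ℕ) := by simp [hxy, hxz]
      have := hi {x, y, z} (by
        intro w hw
        simp only [Finset.coe_insert, Finset.coe_singleton, Set.mem_insert_iff,
          Set.mem_singleton_iff] at hw
        rcases hw with rfl | rfl | rfl <;> assumption) (by simp) (by
        rw [Finset.card_insert_of_notMem h1, Finset.card_pair hyz])
      rw [Finset.sum_insert h1, Finset.sum_pair hyz, ← add_assoc] at this
      exact congrArg Fin.val this
    obtain ⟨k1, k2⟩ := computes hinf
      (fun x hx y hy _ _ hxy => (e1 x hx).trans (e2 x hx y hy hxy).symm)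
      (fun x hx y hy w hw _ _ _ hxy hxw hyw =>
        (e1 x hx).trans (e3 x hx y hy w hw hxy hxw hyw).symm)
    obtain ⟨e, he⟩ := univ_W0 hp
    have h1 : Pool.Agent.Helper446.Oracle.REIn X (fun n => n ∈ {n | p n}) :=
      (k1.comp (f := fun n : ℕ => Nat.pair e n) (by fun_prop)).of_eq fun n => (he n).symm
    have h2 : Pool.Agent.Helper446.Oracle.REIn X (fun n => n ∉ {n | p n}) :=
      (k2.comp (f := fun n : ℕ => Nat.pair e n) (by fun_prop)).of_eq fun n =>
        not_congr (he n).symm
    exact Pool.Agent.Helper446.Oracle.turingReducible_iff.2 ⟨h1, h2⟩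

end Pool.Agent.Results.MP_69fea5_lc.TwoColoursThreeSums
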